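import Mathlib

open Matrix

namespace Pool.Agent.Results.MP_efe8c5_co.SuspensionFails

variable {V : Type} [Fintype V] [DecidableEq V]

/-- A magnetic potential on `G`: unimodular values on oriented edges with
`σ (y, x) = σ (x, y)⁻¹` (values off the edges are irrelevant). -/
def IsPotential (G : SimpleGraph V) (σ : V → V → ℂ) : Prop :=
  ∀ x y, G.Adj x y → ‖σ x y‖ = 1 ∧ σ y x = (σ x y)⁻¹

open Classical in
/-- The magnetic Laplacian. -/
noncomputable def magLap (G : SimpleGraph V) (σ : V → V → ℂ) (f : V → ℂ) : V → ℂ :=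
  fun x => ∑ y with G.Adj x y, (f x - σ x y * f y)

/-- The smallest eigenvalue of the magnetic Laplacian. -/
noncomputable def lam1 (G : SimpleGraph V) (σ : V → V → ℂ) : ℝ :=
  sInf {t : ℝ | ∃ f : V → ℂ, f ≠ 0 ∧ magLap G σ f = (t : ℂ) • f}

/-- The magneto-spectral height. -/
noncomputable def height (G : SimpleGraph V) : ℝ :=
  sSup {t : ℝ | ∃ σ, IsPotential G σ ∧ lam1 G σ = t}

/-- The suspension: a new vertex `none` adjacent to all vertices. -/
def susp (G : SimpleGraph V) : SimpleGraph (Option V) where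
  Adj
    | some x, some y => G.Adj x y
    | some _, none => True
    | none, some _ => True
    | none, none => False
  symm := ⟨by rintro (_ | x) (_ | y) h <;> first | exact h | exact h.symm⟩
  loopless := ⟨by rintro (_ | x) h; exact h; exact G.loopless.1 x h⟩

open Classical in
noncomputable def mat (G : SimpleGraph V) (σ : V → V → ℂ) : Matrix V V ℂ :=
  fun x y => (if x = y then ((Finset.univ.filter fun z => G.Adj x z).card : ℂ) else 0) -
    if G.Adj x y then σ x y else 0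

theorem mat_mulVec (G : SimpleGraph V) (σ : V → V → ℂ) (f : V → ℂ) :
    mat G σ *ᵥ f = magLap G σ f := by
  classical
  funext x
  simp only [mat, magLap, Matrix.mulVec, dotProduct, sub_mul, Finset.sum_sub_distrib, ite_mul,
    zero_mul, Finset.sum_ite_eq, Finset.mem_univ, if_true, Finset.sum_const, nsmul_eq_mul,
    Finset.sum_filter]

theorem mat_herm (G : SimpleGraph V) (σ : V → V → ℂ) (h : IsPotential G σ) :
    (mat G σ).IsHermitian := by
  classical
  ext x y
  simp only [conjTranspose_apply, mat, star_sub]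
  congr 1
  · by_cases hxy : x = y
    · subst hxy; simp
    · simp [hxy, Ne.symm hxy]
  · by_cases hxy : G.Adj x y
    · rw [if_pos hxy, if_pos hxy.symm, (h x y hxy).2, Complex.inv_eq_conj (h x y hxy).1]
      simp
    · rw [if_neg hxy, if_neg (fun h' => hxy h'.symm), star_zero]

def eig (G : SimpleGraph V) (σ : V → V → ℂ) : Set ℝ :=
  {t : ℝ | ∃ f : V → ℂ, f ≠ 0 ∧ magLap G σ f = (t : ℂ) • f}

theorem eig_of {A : Matrix V V ℂ} (hA : A.IsHermitian) (i : V) :
    ∃ f : V → ℂ, f ≠ 0 ∧ A *ᵥ f = (hA.eigenvalues i : ℂ) • f := by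
  refine ⟨(hA.eigenvectorBasis i).ofLp, ?_, ?_⟩
  · intro h
    exact hA.eigenvectorBasis.orthonormal.ne_zero i (by ext j; exact congrFun h j)
  · rw [hA.mulVec_eigenvectorBasis]
    ext j; simp

theorem nsq (f : V → ℂ) : star f ⬝ᵥ f = ((∑ x, ‖f x‖ ^ 2 : ℝ) : ℂ) := by
  simp only [dotProduct, Pi.star_apply, Complex.ofReal_sum]
  refine Finset.sum_congr rfl fun x _ => ?_
  rw [mul_comm, Complex.star_def, Complex.mul_conj, Complex.normSq_eq_norm_sq]

theorem nsq_pos (f : V → ℂ) (hf : f ≠ 0) : 0 < ∑ x, ‖f x‖ ^ 2 := by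
  obtain ⟨x, hx⟩ := Function.ne_iff.1 hf
  refine Finset.sum_pos' (fun _ _ => by positivity) ⟨x, Finset.mem_univ _, ?_⟩
  have : f x ≠ 0 := hx
  positivity

theorem eig_lower (G : SimpleGraph V) (σ : V → V → ℂ) (c : ℝ)
    (hc : ∀ f : V → ℂ, c * ∑ x, ‖f x‖ ^ 2 ≤ (star f ⬝ᵥ magLap G σ f).re) :
    ∀ t ∈ eig G σ, c ≤ t := by
  rintro t ⟨f, hf, he⟩
  have := hc f
  rw [he, dotProduct_smul, nsq, smul_eq_mul, ← Complex.ofReal_mul, Complex.ofReal_re] at this
  exact le_of_mul_le_mul_right this (nsq_pos f hf)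

theorem eig_finite (G : SimpleGraph V) (σ : V → V → ℂ) : (eig G σ).Finite := by
  have h1 : (spectrum ℂ (mat G σ)).Finite := Matrix.finite_spectrum _
  refine (h1.preimage Complex.ofReal_injective.injOn).subset ?_
  rintro t ⟨f, hf, he⟩
  rw [Set.mem_preimage, ← Matrix.spectrum_toLin', ← Module.End.hasEigenvalue_iff_mem_spectrum]
  refine Module.End.hasEigenvalue_of_hasEigenvector (x := f) ⟨?_, hf⟩
  rw [Module.End.mem_eigenspace_iff, Matrix.toLin'_apply, mat_mulVec, he]

theorem lam1_ge [Nonempty V] (G : SimpleGraph V) (σ : V → V → ℂ) (h : IsPotential G σ) (c : ℝ)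
    (hc : ∀ f : V → ℂ, c * ∑ x, ‖f x‖ ^ 2 ≤ (star f ⬝ᵥ magLap G σ f).re) : c ≤ lam1 G σ := by
  obtain ⟨i⟩ := ‹Nonempty V›
  obtain ⟨f, hf, he⟩ := eig_of (mat_herm G σ h) i
  exact le_csInf ⟨_, f, hf, by rw [← mat_mulVec, he]⟩ (eig_lower G σ c hc)

open ComplexOrder in
theorem lam1_le (G : SimpleGraph V) (σ : V → V → ℂ) (h : IsPotential G σ) (f : V → ℂ) :
    lam1 G σ * ∑ x, ‖f x‖ ^ 2 ≤ (star f ⬝ᵥ magLap G σ f).re := by
  have hB : (mat G σ - (lam1 G σ : ℂ) • (1 : Matrix V V ℂ)).IsHermitian := by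
    refine (mat_herm G σ h).sub ?_
    ext x y
    by_cases hxy : x = y
    · subst hxy; simp
    · simp [hxy, Ne.symm hxy]
  have hpsd : (mat G σ - (lam1 G σ : ℂ) • (1 : Matrix V V ℂ)).PosSemidef := by
    rw [hB.posSemidef_iff_eigenvalues_nonneg]
    intro i
    obtain ⟨g, hg, he⟩ := eig_of hB i
    have hm : hB.eigenvalues i + lam1 G σ ∈ eig G σ := by
      refine ⟨g, hg, ?_⟩
      rw [Matrix.sub_mulVec, Matrix.smul_mulVec, Matrix.one_mulVec, mat_mulVec] at he
      rw [Complex.ofReal_add, add_smul, ← he]; simp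
    have : lam1 G σ ≤ hB.eigenvalues i + lam1 G σ := csInf_le (eig_finite G σ).bddBelow hm
    show (0 : ℝ) ≤ hB.eigenvalues i
    linarith
  have := hpsd.re_dotProduct_nonneg f
  rw [Matrix.sub_mulVec, Matrix.smul_mulVec, Matrix.one_mulVec, mat_mulVec, dotProduct_sub,
    dotProduct_smul, nsq, smul_eq_mul, ← Complex.ofReal_mul] at this
  simp only [RCLike.re_to_complex, Complex.sub_re, Complex.ofReal_re] at this
  linarith

/-- `K₄` on `{1, 2, 3, 4}` with a pendant vertex `0` attached to `1`. -/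
def G0 : SimpleGraph (Fin 5) where
  Adj x y := x ≠ y ∧ ((x ≠ 0 ∧ y ≠ 0) ∨ x = 1 ∨ y = 1)
  symm := ⟨by intro x y; revert x y; decide⟩
  loopless := ⟨fun _ h => h.1 rfl⟩

instance : DecidableRel G0.Adj := fun x y =>
  inferInstanceAs (Decidable (x ≠ y ∧ ((x ≠ 0 ∧ y ≠ 0) ∨ x = 1 ∨ y = 1)))

def s0 (x y : Fin 5) : ℂ := if x = 0 ∨ y = 0 then 1 else -1

theorem s0_pot : IsPotential G0 s0 := by
  intro x y _
  unfold s0
  by_cases h : x = 0 ∨ y = 0
  · simp [h, h.symm]
  · have h' : ¬ (y = 0 ∨ x = 0) := fun e => h e.symm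
    simp [h, h']

theorem lower : (4 / 7 : ℝ) ≤ lam1 G0 s0 := by
  refine lam1_ge G0 s0 s0_pot _ fun f => ?_
  simp only [dotProduct, magLap, Finset.sum_filter, Fin.sum_univ_five, Pi.star_apply, G0, s0,
    Complex.sq_norm, Complex.normSq_apply]
  simp
  nlinarith [sq_nonneg ((f 1).re + (f 2).re + (f 3).re + (f 4).re),
    sq_nonneg ((f 1).im + (f 2).im + (f 3).im + (f 4).im),
    sq_nonneg (3 * (f 0).re - 7 * (f 1).re), sq_nonneg (3 * (f 0).im - 7 * (f 1).im),
    sq_nonneg (f 1).re, sq_nonneg (f 1).im, sq_nonneg (f 2).re, sq_nonneg (f 2).im,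
    sq_nonneg (f 3).re, sq_nonneg (f 3).im, sq_nonneg (f 4).re, sq_nonneg (f 4).im]

theorem bdd : BddAbove {t : ℝ | ∃ σ, IsPotential G0 σ ∧ lam1 G0 σ = t} := by
  refine ⟨1, ?_⟩
  rintro t ⟨σ, hσ, rfl⟩
  have := lam1_le G0 σ hσ (Pi.single 0 1)
  generalize lam1 G0 σ = L at this ⊢
  simp only [dotProduct, magLap, Finset.sum_filter, Fin.sum_univ_five, Pi.star_apply, G0] at this
  simpa using this

theorem upper (σ : Option (Fin 5) → Option (Fin 5) → ℂ) (h : IsPotential (susp G0) σ) :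
    lam1 (susp G0) σ ≤ 14 / 9 := by
  obtain ⟨a1, a2⟩ := h (some 0) (some 1) (by show G0.Adj 0 1; decide)
  obtain ⟨b1, b2⟩ := h (some 0) none trivial
  obtain ⟨c1, c2⟩ := h (some 1) none trivial
  rw [Complex.inv_eq_conj a1] at a2
  rw [Complex.inv_eq_conj b1] at b2
  rw [Complex.inv_eq_conj c1] at c2
  have key := lam1_le (susp G0) σ h (fun x => match x with
    | none => σ none (some 0)
    | some i => if i = 0 then 4 else if i = 1 then σ (some 1) (some 0) else 0)
  generalize lam1 (susp G0) σ = L at key ⊢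
  simp only [dotProduct, magLap, Finset.sum_filter, Fintype.sum_option, Fin.sum_univ_five,
    Pi.star_apply, G0, susp, a2, b2, c2] at key
  generalize σ (some 0) (some 1) = a at *
  generalize σ (some 0) none = b at *
  generalize σ (some 1) none = c at *
  have a3 : a.re * a.re + a.im * a.im = 1 := by
    rw [← Complex.normSq_apply, Complex.normSq_eq_norm_sq, a1]; norm_num
  have b3 : b.re * b.re + b.im * b.im = 1 := by
    rw [← Complex.normSq_apply, Complex.normSq_eq_norm_sq, b1]; norm_num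
  have hw : ‖a * c * (starRingEnd ℂ) b‖ = 1 := by simp [a1, b1, c1]
  have hw2 := (abs_le.1 ((Complex.abs_re_le_norm (a * c * (starRingEnd ℂ) b)).trans hw.le)).1
  simp [a1, b1] at key hw2
  nlinarith

theorem result : ∃ (n : ℕ) (G : SimpleGraph (Fin n)), 1 ≤ n ∧ (∀ x, ∃ y, G.Adj x y) ∧
    height (susp G) ≠ height G + 1 := by
  refine ⟨5, G0, by norm_num, by decide, ?_⟩
  have h1 : (4 / 7 : ℝ) ≤ height G0 := lower.trans (le_csSup bdd ⟨s0, s0_pot, rfl⟩)
  have h2 : height (susp G0) ≤ 14 / 9 := by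
    refine csSup_le ⟨_, fun _ _ => 1, fun _ _ _ => by simp, rfl⟩ ?_
    rintro t ⟨σ, hσ, rfl⟩
    exact upper σ hσ
  intro h
  linarith

end Pool.Agent.Results.MP_efe8c5_co.SuspensionFails
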